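import Pool.Agent.W792.WA.Stm6
import Pool.Agent.W853.WA.Semi

set_option autoImplicit false

namespace Pool.Agent.W915.WA.WH

open MeasureTheory Filter Pool.Agent.W792.LL Pool.Agent.W792.WA
open scoped Topology

section

open Pool.Agent.W853.WA

theorem isSemi_psc : IsSemi psc := by
  refine ⟨?_, ?_, ?_⟩
  · intro t
    obtain ⟨φ, rfl⟩ := QuotientAddGroup.mk_surjective t
    have := psc_coe φ
    rw [show psc (QuotientAddGroup.mk φ) = psr φ from this]
    exact Real.abs_cos_le_one _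
  · intro a
    apply Set.Countable.measure_zero
    by_cases h : ∃ θ₀ : ℝ, Real.cos θ₀ = a
    · obtain ⟨θ₀, rfl⟩ := h
      apply Set.Countable.mono (s₂ := Set.range (fun k : ℤ => Ph (2 * k * Real.pi + θ₀)) ∪
        Set.range (fun k : ℤ => Ph (2 * k * Real.pi - θ₀)))
      · rintro φ ⟨-, hφ⟩
        rw [psc_coe] at hφ
        obtain ⟨θ, rfl⟩ := Ph_surj φ
        rw [psr_Ph] at hφ
        obtain ⟨k, hk | hk⟩ := Real.cos_eq_cos_iff.1 hφ.symm
        · exact Or.inl ⟨k, by rw [hk]⟩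
        · exact Or.inr ⟨k, by rw [hk]⟩
      · exact (Set.countable_range _).union (Set.countable_range _)
    · have : {φ : ℝ | φ ∈ Set.Ioc (0 : ℝ) 1 ∧ psc (φ : UnitAddCircle) = a} = ∅ := by
        ext φ
        simp only [Set.mem_ofPred_eq, Set.mem_empty_iff_false, iff_false, not_and]
        intro _ hφ
        rw [psc_coe] at hφ
        exact h ⟨_, hφ⟩
      rw [this]
      exact Set.countable_empty
  · intro w hw
    obtain ⟨x, hx, he, hi⟩ := semi_int w hw
    have hI : ∫ φ in Set.Ioc (0 : ℝ) 1, 1 / (w + (psc (φ : UnitAddCircle) : ℂ)) = 2 * x := by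
      rw [← intervalIntegral.integral_of_le zero_le_one]
      simp only [psc_coe]
      have hne : ∀ φ : ℝ, w + (psr φ : ℂ) ≠ 0 := by
        intro φ h
        have := congrArg Complex.im h
        simp only [Complex.add_im, Complex.ofReal_im, add_zero, Complex.zero_im] at this
        linarith
      have hc : Continuous fun φ : ℝ => 1 / (w + (psr φ : ℂ)) := by
        apply continuous_const.div _ hne
        have := psr_cont
        fun_prop
      have h1 := intervalIntegral.integral_deriv_smul_comp (a := 0) (b := 2 * Real.pi) (f := Ph)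
        (f' := fun θ => (1 - Real.cos θ ^ 2) / Real.pi) (g := fun φ : ℝ => 1 / (w + (psr φ : ℂ)))
        (fun θ _ => Ph_deriv θ) (by fun_prop) hc
      rw [Ph_zero, Ph_two_pi] at h1
      rw [← h1, ← hi]
      congr 1
      ext θ
      simp only [Function.comp_apply, psr_Ph, Complex.real_smul]
      ring
    rw [hI]
    constructor
    · rw [norm_mul]
      have : ‖(2 : ℂ)‖ = 2 := by simp
      rw [this]
      linarith
    · linear_combination he

end

/-- lower bound near zero -/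
theorem sub_sin (x : ℝ) (h0 : 0 ≤ x) (h1 : x ≤ 1) :
    11 / 96 * x ^ 3 ≤ x - Real.sin x ∧ 3 / 4 * x ≤ Real.sin x := by
  have hb := Real.sin_bound (x := x) (by rw [abs_of_nonneg h0]; exact h1)
  rw [abs_of_nonneg h0, abs_le] at hb
  obtain ⟨hb1, hb2⟩ := hb
  have h3 : x ^ 3 ≤ x := by
    have : x ^ 2 ≤ 1 := by nlinarith
    nlinarith
  have h2 : x ^ 2 ≤ 1 := by nlinarith
  have h4 : x ^ 5 ≤ x ^ 3 := by
    have h6 : 0 ≤ x ^ 3 := by positivity
    have h7 : x ^ 3 * x ^ 2 ≤ x ^ 3 * 1 := mul_le_mul_of_nonneg_left h2 h6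
    calc x ^ 5 = x ^ 3 * x ^ 2 := by ring
      _ ≤ x ^ 3 := by linarith
  have h8 : 0 ≤ x ^ 3 := by positivity
  constructor
  · linarith
  · linarith

theorem sub_abs_sin (x : ℝ) (h1 : 1 ≤ x) : 1 / 10 ≤ x - |Real.sin x| := by
  by_cases hs : 0 ≤ Real.sin x
  · rw [abs_of_nonneg hs]
    have hm : Pool.Agent.W853.WA.Ph (1 / 2) ≤ Pool.Agent.W853.WA.Ph (x / 2) :=
      Pool.Agent.W853.WA.Ph_mono.monotone (by linarith)
    unfold Pool.Agent.W853.WA.Ph at hm
    have h0 : 0 < 2 * Real.pi := by positivity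
    rw [div_le_div_iff_of_pos_right h0] at hm
    have e1 : (2 : ℝ) * (1 / 2) = 1 := by norm_num
    have e2 : (2 : ℝ) * (x / 2) = x := by ring
    rw [e1, e2] at hm
    have := (sub_sin 1 (by norm_num) le_rfl).1
    linarith
  · push Not at hs
    have hx : Real.pi < x := by
      by_contra hc
      push Not at hc
      have := Real.sin_nonneg_of_nonneg_of_le_pi (by linarith) hc
      linarith
    have := Real.pi_gt_three
    have := Real.abs_sin_le_one x
    linarith

theorem key1 (a b : ℝ) (hab : b ≤ a) : |Real.cos a - Real.cos b| ^ 3 ≤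
    800 * (2 * Real.pi * (Pool.Agent.W853.WA.Ph a - Pool.Agent.W853.WA.Ph b)) ^ 2 := by
  set u := (a + b) / 2 with hu
  set v := (a - b) / 2 with hv
  have hv0 : 0 ≤ v := by rw [hv]; linarith
  have hD : 2 * Real.pi * (Pool.Agent.W853.WA.Ph a - Pool.Agent.W853.WA.Ph b) =
      2 * v - Real.sin (2 * v) * Real.cos (2 * u) := by
    unfold Pool.Agent.W853.WA.Ph
    have h1 : Real.sin (2 * a) - Real.sin (2 * b) = 2 * (Real.sin (2 * v) * Real.cos (2 * u)) := by
      rw [Real.sin_sub_sin]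
      have e1 : (2 * a - 2 * b) / 2 = 2 * v := by rw [hv]; ring
      have e2 : (2 * a + 2 * b) / 2 = 2 * u := by rw [hu]; ring
      rw [e1, e2]
      ring
    have e3 : Real.sin (2 * v) * Real.cos (2 * u) = (Real.sin (2 * a) - Real.sin (2 * b)) / 2 := by
      rw [h1]; ring
    rw [e3]
    have := Real.pi_ne_zero
    rw [hv]
    field_simp
    ring
  have hC : Real.cos a - Real.cos b = -2 * Real.sin u * Real.sin v := by
    rw [Real.cos_sub_cos]
  rw [hD, hC]
  have hs2 : Real.sin u ^ 2 ≤ 1 := Real.sin_sq_le_one u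
  by_cases hv1 : 2 * v ≤ 1
  · obtain ⟨g1, g2⟩ := sub_sin (2 * v) (by linarith) hv1
    set s := |Real.sin u| with hs
    have hs0 : 0 ≤ s := abs_nonneg _
    have hc2 : Real.cos (2 * u) = 1 - 2 * s ^ 2 := by
      rw [hs, sq_abs, Real.cos_two_mul, Real.cos_sq']
      ring
    have hsv : |Real.sin v| ≤ v := by
      have := Real.abs_sin_le_abs (x := v)
      rwa [abs_of_nonneg hv0] at this
    have hL : |(-2) * Real.sin u * Real.sin v| ≤ 2 * s * v := by
      rw [abs_mul, abs_mul]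
      have : |(-2 : ℝ)| = 2 := by norm_num
      rw [this]
      exact mul_le_mul_of_nonneg_left hsv (by positivity)
    have hL3 : |(-2) * Real.sin u * Real.sin v| ^ 3 ≤ (2 * s * v) ^ 3 :=
      pow_le_pow_left₀ (abs_nonneg _) hL 3
    set T := 2 * v - Real.sin (2 * v) * Real.cos (2 * u) with hT
    have hT0 : v ^ 3 / 2 + 2 * v * s ^ 2 ≤ T := by
      rw [hT, hc2]
      have h5 : 0 ≤ s ^ 2 := sq_nonneg _
      have h6 : 3 / 4 * (2 * v) * s ^ 2 ≤ Real.sin (2 * v) * s ^ 2 :=
        mul_le_mul_of_nonneg_right g2 h5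
      have h7 : 0 ≤ v ^ 3 := by positivity
      have h8 : 0 ≤ v * s ^ 2 := by positivity
      nlinarith
    have hT1 : 2 * v ^ 2 * s ≤ T := by
      have : 0 ≤ v * (v - 2 * s) ^ 2 := by positivity
      nlinarith
    have hT2 : 2 * v * s ^ 2 ≤ T := by
      have : 0 ≤ v ^ 3 := by positivity
      linarith
    have hT3 : (2 * v ^ 2 * s) * (2 * v * s ^ 2) ≤ T * T :=
      mul_le_mul hT1 hT2 (by positivity) (le_trans (by positivity) hT1)
    have h9 : 0 ≤ T ^ 2 := sq_nonneg _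
    calc _ ≤ (2 * s * v) ^ 3 := hL3
      _ = 2 * ((2 * v ^ 2 * s) * (2 * v * s ^ 2)) := by ring
      _ ≤ 2 * (T * T) := by linarith
      _ ≤ 800 * T ^ 2 := by nlinarith
  · push Not at hv1
    have g := sub_abs_sin (2 * v) hv1.le
    have hT : 1 / 10 ≤ 2 * v - Real.sin (2 * v) * Real.cos (2 * u) := by
      have h1 : |Real.sin (2 * v) * Real.cos (2 * u)| ≤ |Real.sin (2 * v)| := by
        rw [abs_mul]
        have := Real.abs_cos_le_one (2 * u)
        have := abs_nonneg (Real.sin (2 * v))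
        nlinarith
      have h2 := le_abs_self (Real.sin (2 * v) * Real.cos (2 * u))
      linarith
    have hL : |(-2) * Real.sin u * Real.sin v| ≤ 2 := by
      rw [abs_mul, abs_mul]
      have h1 : |(-2 : ℝ)| = 2 := by norm_num
      rw [h1]
      have h2 := Real.abs_sin_le_one u
      have h3 := Real.abs_sin_le_one v
      have h4 := abs_nonneg (Real.sin u)
      have h5 := abs_nonneg (Real.sin v)
      nlinarith
    have hL3 : |(-2) * Real.sin u * Real.sin v| ^ 3 ≤ 2 ^ 3 :=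
      pow_le_pow_left₀ (abs_nonneg _) hL 3
    have hT2 : (1 / 10 : ℝ) ^ 2 ≤ (2 * v - Real.sin (2 * v) * Real.cos (2 * u)) ^ 2 :=
      pow_le_pow_left₀ (by norm_num) hT 2
    linarith

theorem key2 (a b : ℝ) : |Real.cos a - Real.cos b| ^ 3 ≤
    (800 * (2 * Real.pi) ^ 2) * |Pool.Agent.W853.WA.Ph a - Pool.Agent.W853.WA.Ph b| ^ 2 := by
  rw [sq_abs]
  rcases le_total b a with h | h
  · have := key1 a b h
    rwa [mul_pow, ← mul_assoc] at this
  · have := key1 b a h
    rw [abs_sub_comm]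
    rw [mul_pow, ← mul_assoc] at this
    rw [show (Pool.Agent.W853.WA.Ph a - Pool.Agent.W853.WA.Ph b) ^ 2 =
      (Pool.Agent.W853.WA.Ph b - Pool.Agent.W853.WA.Ph a) ^ 2 by ring]
    exact this

theorem root (A K D : ℝ) (hA : 0 ≤ A) (hK : 0 ≤ K) (hD : 0 ≤ D) (h : A ^ 3 ≤ K * D ^ 2) :
    A ≤ K ^ (1 / 3 : ℝ) * D ^ (2 / 3 : ℝ) := by
  have h1 : A = (A ^ 3) ^ (1 / 3 : ℝ) := by
    rw [← Real.rpow_natCast, ← Real.rpow_mul hA]
    norm_num
  have h2 : (D ^ 2) ^ (1 / 3 : ℝ) = D ^ (2 / 3 : ℝ) := by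
    rw [← Real.rpow_natCast, ← Real.rpow_mul hD]
    norm_num
  rw [h1, ← h2, ← Real.mul_rpow hK (sq_nonneg D)]
  exact Real.rpow_le_rpow (by positivity) h (by norm_num)

theorem main : S_WH := by
  refine ⟨Pool.Agent.W853.WA.psc, isSemi_psc, (800 * (2 * Real.pi) ^ 2) ^ (1 / 3 : ℝ), ?_⟩
  intro s t
  rw [Pool.Agent.W853.WA.psc_coe, Pool.Agent.W853.WA.psc_coe]
  obtain ⟨a, rfl⟩ := Pool.Agent.W853.WA.Ph_surj s
  obtain ⟨b, rfl⟩ := Pool.Agent.W853.WA.Ph_surj t
  rw [Pool.Agent.W853.WA.psr_Ph, Pool.Agent.W853.WA.psr_Ph]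
  exact root _ _ _ (abs_nonneg _) (by positivity) (abs_nonneg _) (key2 a b)

end Pool.Agent.W915.WA.WH
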